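import Mathlib

/-!
# Successor levels of cardinals
-/

set_option autoImplicit false

namespace Pool.Agent.H23.BM

open Cardinal Set

/-- `κ, κ⁺, κ⁺⁺, …` -/
noncomputable def lev (κ : Cardinal.{0}) : ℕ → Cardinal.{0}
  | 0 => κ
  | i + 1 => Order.succ (lev κ i)

/-- the well order of type `κ^{+i}` -/
abbrev K (κ : Cardinal.{0}) (i : ℕ) : Type := (lev κ i).ord.ToType

variable {κ : Cardinal.{0}}

theorem aleph0_le_lev (hκ : ℵ₀ ≤ κ) (i : ℕ) : ℵ₀ ≤ lev κ i := by
  induction i with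
  | zero => exact hκ
  | succ i ih => exact ih.trans (Order.le_succ _)

theorem lev_mono {i j : ℕ} (h : i ≤ j) : lev κ i ≤ lev κ j := by
  induction j, h using Nat.le_induction with
  | base => exact le_rfl
  | succ j _ ih => exact ih.trans (Order.le_succ _)

theorem mk_K (i : ℕ) : #(K κ i) = lev κ i := mk_ord_toType _

theorem K_nonempty (hκ : ℵ₀ ≤ κ) (i : ℕ) : Nonempty (K κ i) := by
  rw [← mk_ne_zero_iff, mk_K]
  exact (aleph0_pos.trans_le (aleph0_le_lev hκ i)).ne'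

theorem lev_regular (hκ : ℵ₀ ≤ κ) (i : ℕ) : (lev κ (i + 1)).IsRegular :=
  isRegular_succ (aleph0_le_lev hκ i)

theorem mk_Iic_K (hκ : ℵ₀ ≤ κ) (i : ℕ) (γ : K κ (i + 1)) : #(Iic γ) ≤ lev κ i := by
  have h1 : #(Iio γ) < lev κ (i + 1) := mk_Iio_toType_ord_lt γ
  have h2 : #(Iio γ) ≤ lev κ i := Order.lt_succ_iff.1 h1
  have h3 : (Iic γ : Set (K κ (i + 1))) = insert γ (Iio γ) := (Iio_insert).symm
  rw [h3]
  refine (mk_insert_le).trans ?_
  refine (add_le_add h2 (one_le_aleph0.trans (aleph0_le_lev hκ i))).trans ?_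
  exact (add_eq_self (aleph0_le_lev hκ i)).le

/-- coding of the predecessors -/
theorem exists_code (hκ : ℵ₀ ≤ κ) (i : ℕ) : ∃ e : K κ (i + 1) → K κ (i + 1) → K κ i,
    ∀ γ, InjOn (e γ) (Iic γ) := by
  classical
  have h : ∀ γ : K κ (i + 1), ∃ f : K κ (i + 1) → K κ i, InjOn f (Iic γ) := by
    intro γ
    have h1 : #(Iic γ) ≤ #(K κ i) := by rw [mk_K]; exact mk_Iic_K hκ i γ
    obtain ⟨f⟩ := h1
    obtain ⟨a⟩ := K_nonempty hκ i
    refine ⟨fun x => if hx : x ∈ Iic γ then f ⟨x, hx⟩ else a, ?_⟩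
    intro x hx y hy hxy
    simp only [dif_pos hx, dif_pos hy] at hxy
    exact congrArg Subtype.val (f.injective hxy)
  choose e he using h
  exact ⟨e, he⟩

/-- small sets are bounded -/
theorem exists_bound (hκ : ℵ₀ ≤ κ) (i : ℕ) (s : Set (K κ (i + 1))) (hs : #s < lev κ (i + 1)) :
    ∃ x, ∀ y ∈ s, y < x := by
  by_contra hcon
  push Not at hcon
  have h1 : IsCofinal s := hcon
  have h2 := Order.cof_le h1
  have h3 : Order.cof (K κ (i + 1)) = lev κ (i + 1) := by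
    rw [Ordinal.cof_toType (lev κ (i + 1)).ord]
    exact (lev_regular hκ i).cof_ord
  rw [h3] at h2
  exact absurd hs (not_lt.2 h2)

end Pool.Agent.H23.BM
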