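import Pool.Agent.H23.BM.Core
import Pool.Agent.H23.BM.Card

/-!
# Descending through the levels
-/

set_option autoImplicit false

namespace Pool.Agent.H23.BM

open Cardinal Set

variable {κ : Cardinal.{0}} {P : Type} [Preorder P]

/-- coding by supersets: every element has at most `κ^{+N}` predecessors -/
theorem dec_zero (hκ : ℵ₀ ≤ κ) (N : ℕ) (h : ∀ p : P, #{x : P // p ≤ x} ≤ lev κ N) :
    Dec P 1 (K κ N) := by
  classical
  have h1 : ∀ p : P, ∃ f : List P → K κ N, InjOn f {l | ∀ x ∈ l, p ≤ x} := by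
    intro p
    have hne : Nonempty {x : P // p ≤ x} := ⟨⟨p, le_rfl⟩⟩
    have h2 : #({l : List P | ∀ x ∈ l, p ≤ x} : Set (List P)) ≤ #(K κ N) := by
      have h3 : #({l : List P | ∀ x ∈ l, p ≤ x} : Set (List P)) ≤ #(List {x : P // p ≤ x}) := by
        refine Cardinal.mk_le_of_surjective
          (f := fun l : List {x : P // p ≤ x} => (⟨l.map Subtype.val, ?_⟩ :
            ({l : List P | ∀ x ∈ l, p ≤ x} : Set (List P)))) ?_
        · intro x hx
          rw [List.mem_map] at hx
          obtain ⟨y, -, rfl⟩ := hx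
          exact y.2
        · rintro ⟨l, hl⟩
          have hl' : ∀ x ∈ l, p ≤ x := hl
          lift l to List {x : P // p ≤ x} using hl'
          exact ⟨l, rfl⟩
      refine h3.trans ((mk_list_le_max _).trans ?_)
      rw [mk_K]
      exact max_le (aleph0_le_lev hκ N) (h p)
    obtain ⟨f⟩ := h2
    obtain ⟨a⟩ := K_nonempty hκ N
    refine ⟨fun x => if hx : x ∈ {l : List P | ∀ x ∈ l, p ≤ x} then f ⟨x, hx⟩ else a, ?_⟩
    intro x hx y hy hxy
    simp only [dif_pos hx, dif_pos hy] at hxy
    exact congrArg Subtype.val (f.injective hxy)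
  choose e he using h1
  have := K_nonempty hκ N
  exact dec_base e he

/-- descending from level `N` to level `j` -/
theorem dec_chain (hκ : ℵ₀ ≤ κ) (N : ℕ) (h : ∀ p : P, #{x : P // p ≤ x} ≤ lev κ N) (j : ℕ)
    (hj : j ≤ N)
    (hf : ∀ i, j < i → i ≤ N → ∃ f : P → K κ i, (∀ p q, q ≤ p → f p ≤ f q) ∧
      ∀ p γ, ∃ q ≤ p, γ ≤ f q) : Dec P (N - j + 1) (K κ j) := by
  obtain ⟨d, rfl⟩ : ∃ d, N = j + d := ⟨N - j, by omega⟩
  have key : ∀ m, m ≤ d → Dec P (m + 1) (K κ (j + d - m)) := by
    intro m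
    induction m with
    | zero => intro _; exact dec_zero hκ _ h
    | succ m ih =>
      intro hm
      obtain ⟨t, ht⟩ : ∃ t, j + d - m = t + 1 := ⟨j + d - m - 1, by omega⟩
      have ht' : j + d - (m + 1) = t := by omega
      have h1 := ih (by omega)
      rw [ht] at h1
      rw [ht']
      obtain ⟨f, hf1, hf2⟩ := hf (t + 1) (by omega) (by omega)
      obtain ⟨e, he⟩ := exists_code hκ t
      have := K_nonempty hκ t
      have := K_nonempty hκ (t + 1)
      exact dec_step (Nat.le_add_left 1 m) h1 f hf1 hf2 e he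
  have h2 := key d le_rfl
  rwa [show j + d - d = j by omega, show d = j + d - j by omega] at h2

end Pool.Agent.H23.BM
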