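import Mathlib

/-!
# Coding of histories in descending games on a preorder

Moves are elements of a preorder `P`, histories are lists with the most recent move first.
`Dec P k K`: after a shrinking of the replies, the whole history is determined by the last `k` moves
and an element of `K` which depends on the history.
-/

set_option autoImplicit false

namespace Pool.Agent.H23.BM

/-- the history at time `n`, the most recent move first -/
def hist {α : Type} (U : ℕ → α) : ℕ → List α
  | 0 => [U 0]
  | n + 1 => U (n + 1) :: hist U n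

theorem hist_ne {α : Type} (U : ℕ → α) (n : ℕ) : hist U n ≠ [] := by
  cases n <;> simp [hist]

theorem hist_map {α β : Type} (f : α → β) (U : ℕ → α) (n : ℕ) :
    (hist U n).map f = hist (fun i => f (U i)) n := by
  induction n with
  | zero => rfl
  | succ n ih => simp [hist, ih]

theorem hist_cons {α : Type} (U : ℕ → α) (n : ℕ) : ∃ l, hist U n = U n :: l := by
  cases n with
  | zero => exact ⟨[], rfl⟩
  | succ n => exact ⟨hist U n, rfl⟩

theorem hist_take {α : Type} (U : ℕ → α) (n k : ℕ) (hk : 1 ≤ k) :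
    ∃ l, (hist U n).take k = U n :: l := by
  obtain ⟨l, hl⟩ := hist_cons U n
  obtain ⟨k, rfl⟩ : ∃ j, k = j + 1 := ⟨k - 1, by omega⟩
  exact ⟨l.take k, by rw [hl, List.take_succ_cons]⟩

variable {P : Type} [Preorder P]

/-- the first `n + 1` moves are descending and obey the constraint `Ψ` -/
def Obeys (Ψ : List P → P → Prop) (U : ℕ → P) (n : ℕ) : Prop :=
  ∀ m < n, U (m + 1) ≤ U m ∧ Ψ (hist U m) (U (m + 1))

/-- the constraint can be enforced by shrinking a reply -/
structure Enf (Ψ : List P → P → Prop) : Prop where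
  dense : ∀ h p, ∃ q ≤ p, Ψ h q
  down : ∀ h p q, q ≤ p → Ψ h p → Ψ h q

/-- the history is determined by the last `k` moves and its code in `K` -/
def Dec (P : Type) [Preorder P] (k : ℕ) (K : Type) : Prop :=
  ∃ (Ψ : List P → P → Prop) (c : List P → K) (D : List P → K → List P), Enf Ψ ∧
    ∀ (U : ℕ → P) (n : ℕ), Obeys Ψ U n → D ((hist U n).take k) (c (hist U n)) = hist U n

theorem Obeys.mono {Ψ : List P → P → Prop} {U : ℕ → P} {m n : ℕ} (h : Obeys Ψ U n) (hm : m ≤ n) :
    Obeys Ψ U m := fun i hi => h i (hi.trans_le hm)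

theorem Obeys.le {Ψ : List P → P → Prop} {U : ℕ → P} {n : ℕ} (h : Obeys Ψ U n) :
    ∀ x ∈ hist U n, U n ≤ x := by
  induction n with
  | zero =>
    intro x hx
    simp only [hist, List.mem_singleton] at hx
    rw [hx]
  | succ n ih =>
    intro x hx
    simp only [hist, List.mem_cons] at hx
    rcases hx with rfl | hx
    · exact le_rfl
    · exact (h n (Nat.lt_succ_self n)).1.trans (ih (h.mono (Nat.le_succ n)) x hx)

/-- coding by the supersets -/
theorem dec_base {K : Type} [Nonempty K] (e : P → List P → K)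
    (he : ∀ p, Set.InjOn (e p) {l | ∀ x ∈ l, p ≤ x}) : Dec P 1 K := by
  classical
  refine ⟨fun _ _ => True, fun h => match h with
      | [] => Classical.arbitrary K
      | p :: l => e p (p :: l),
    fun w k => match w with
      | [] => []
      | p :: _ => Function.invFunOn (e p) {l | ∀ x ∈ l, p ≤ x} k,
    ⟨fun _ p => ⟨p, le_rfl, trivial⟩, fun _ _ _ _ _ => trivial⟩, ?_⟩
  intro U n hU
  obtain ⟨l, hl⟩ := hist_cons U n
  have h1 : ∀ x ∈ hist U n, U n ≤ x := hU.le
  rw [hl] at h1 ⊢
  show Function.invFunOn (e (U n)) {l | ∀ x ∈ l, U n ≤ x} (e (U n) (U n :: l)) = U n :: l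
  exact (he (U n)).leftInvOn_invFunOn h1

/-- one descent -/
theorem dec_step {k : ℕ} (hk : 1 ≤ k) {K K' : Type} [Preorder K] [Nonempty K] [Nonempty K']
    (hD : Dec P k K) (f : P → K) (hf : ∀ p q, q ≤ p → f p ≤ f q)
    (hf' : ∀ p γ, ∃ q ≤ p, γ ≤ f q) (e : K → K → K') (he : ∀ γ, Set.InjOn (e γ) (Set.Iic γ)) :
    Dec P (k + 1) K' := by
  classical
  obtain ⟨Ψ, c, D, hE, hdec⟩ := hD
  refine ⟨fun h q => Ψ h q ∧ c h ≤ f q, fun h => match h with
      | [] => Classical.arbitrary K'
      | p :: l => if l = [] then Classical.arbitrary K' else e (f p) (c l),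
    fun w k' => match w with
      | [] => []
      | p :: w' => if w' = [] then [p] else
          p :: D w' (Function.invFunOn (e (f p)) (Set.Iic (f p)) k'), ⟨?_, ?_⟩, ?_⟩
  · intro h p
    obtain ⟨q, hq, hq'⟩ := hE.dense h p
    obtain ⟨r, hr, hr'⟩ := hf' q (c h)
    exact ⟨r, hr.trans hq, hE.down h q r hr hq', hr'⟩
  · intro h p q hqp hp
    exact ⟨hE.down h p q hqp hp.1, hp.2.trans (hf p q hqp)⟩
  · intro U n hU
    cases n with
    | zero =>
      show (if (([] : List P).take k) = [] then [U 0] else _) = [U 0]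
      rw [List.take_nil, if_pos rfl]
    | succ n =>
      have hne := hist_ne U n
      obtain ⟨l, hl⟩ := hist_take U n k hk
      show (if (hist U n).take k = [] then [U (n + 1)] else
          U (n + 1) :: D ((hist U n).take k) (Function.invFunOn (e (f (U (n + 1))))
            (Set.Iic (f (U (n + 1))))
              (if hist U n = [] then Classical.arbitrary K' else
                e (f (U (n + 1))) (c (hist U n))))) = U (n + 1) :: hist U n
      rw [if_neg hne, if_neg (by rw [hl]; exact List.cons_ne_nil _ _)]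
      have h1 : c (hist U n) ∈ Set.Iic (f (U (n + 1))) := (hU n (Nat.lt_succ_self n)).2.2
      rw [(he (f (U (n + 1)))).leftInvOn_invFunOn h1]
      rw [hdec U n fun m hm => ⟨(hU m (by omega)).1, (hU m (by omega)).2.1⟩]

/-- from a coding with messages in `K` to a tactic -/
theorem dec_tactic {k : ℕ} (hk : 1 ≤ k) {K : Type} [Nonempty K] (hD : Dec P k K)
    (C : P → K → P) (hC : ∀ p m, C p m ≤ p)
    (hC' : ∀ p m m' q, q ≤ C p m → q ≤ C p m' → m = m')
    (Win : (ℕ → P) → Prop) (hWin : ∀ U U' : ℕ → P, (∀ n, U' n ≤ U n) → Win U' → Win U)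
    (σ : List P → P) (hσ : ∀ p l, σ (p :: l) ≤ p)
    (hσ' : ∀ U : ℕ → P, (∀ n, U (n + 1) ≤ σ (hist U n)) → Win U) :
    ∃ τ : List P → P, (∀ p l, τ (p :: l) ≤ p) ∧
      ∀ U : ℕ → P, (∀ n, U (n + 1) ≤ τ ((hist U n).take (k + 1))) → Win U := by
  classical
  obtain ⟨Ψ, c, D, hE, hdec⟩ := hD
  choose g hg hg' using hE.dense
  -- fake histories
  let fk : List P → List P := fun h => List.rec [] (fun p l r => C p (c (p :: l)) :: r) h
  have fk_cons : ∀ p l, fk (p :: l) = C p (c (p :: l)) :: fk l := fun p l => rfl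
  let σ' : List P → P := fun h => g h (σ (fk h))
  have hσ1 : ∀ p l, σ' (p :: l) ≤ C p (c (p :: l)) := by
    intro p l
    refine (hg _ _).trans ?_
    rw [fk_cons]
    exact hσ _ _
  have hσ2 : ∀ p l, σ' (p :: l) ≤ p := fun p l => (hσ1 p l).trans (hC _ _)
  have hσ3 : ∀ h, Ψ h (σ' h) := fun h => hg' _ _
  let dc : P → P → K := fun q p => if h : ∃ m, p ≤ C q m then h.choose else Classical.arbitrary K
  have hdc : ∀ q p m, p ≤ C q m → dc q p = m := by
    intro q p m hm
    have h : ∃ m, p ≤ C q m := ⟨m, hm⟩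
    show (if h : ∃ m, p ≤ C q m then h.choose else Classical.arbitrary K) = m
    rw [dif_pos h]
    exact hC' q _ _ p h.choose_spec hm
  let τ : List P → P := fun w => match w with
    | [] => σ []
    | [p] => σ' [p]
    | p :: q :: l => σ' (p :: D (q :: l) (dc q p))
  refine ⟨τ, ?_, ?_⟩
  · intro p l
    cases l with
    | nil => exact hσ2 _ _
    | cons q l => exact hσ2 _ _
  · intro U hU
    have key : ∀ n, Obeys Ψ U n ∧ τ ((hist U n).take (k + 1)) = σ' (hist U n) := by
      intro n
      induction n with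
      | zero =>
        refine ⟨fun m hm => absurd hm (Nat.not_lt_zero m), ?_⟩
        show τ (([U 0] : List P).take (k + 1)) = σ' [U 0]
        rw [List.take_succ_cons, List.take_nil]
      | succ n ih =>
        obtain ⟨hO, hτ⟩ := ih
        have h1 : U (n + 1) ≤ σ' (hist U n) := by
          rw [← hτ]; exact hU n
        obtain ⟨l, hl⟩ := hist_cons U n
        have h2 : σ' (hist U n) ≤ C (U n) (c (hist U n)) := by
          rw [hl]; exact hσ1 _ _
        have hO' : Obeys Ψ U (n + 1) := by
          intro m hm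
          rcases Nat.lt_succ_iff_lt_or_eq.1 hm with hm | rfl
          · exact hO m hm
          · exact ⟨h1.trans (h2.trans (hC _ _)), hE.down _ _ _ h1 (hσ3 _)⟩
        refine ⟨hO', ?_⟩
        obtain ⟨l', hl'⟩ := hist_take U n k hk
        show τ ((U (n + 1) :: hist U n).take (k + 1)) = σ' (U (n + 1) :: hist U n)
        rw [List.take_succ_cons, hl']
        show σ' (U (n + 1) :: D (U n :: l') (dc (U n) (U (n + 1)))) = _
        rw [hdc (U n) (U (n + 1)) (c (hist U n)) (h1.trans h2), ← hl', hdec U n hO]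
    have hle : ∀ n, U (n + 1) ≤ σ' (hist U n) := fun n => by
      rw [← (key n).2]; exact hU n
    let U' : ℕ → P := fun n => C (U n) (c (hist U n))
    have hfk : ∀ n, fk (hist U n) = hist U' n := by
      intro n
      induction n with
      | zero => rfl
      | succ n ih =>
        show fk (U (n + 1) :: hist U n) = U' (n + 1) :: hist U' n
        rw [fk_cons, ih]
        rfl
    refine hWin U U' (fun n => hC _ _) (hσ' U' fun n => ?_)
    calc U' (n + 1) ≤ U (n + 1) := hC _ _
      _ ≤ σ' (hist U n) := hle n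
      _ ≤ σ (fk (hist U n)) := hg _ _
      _ = σ (hist U' n) := by rw [hfk]

end Pool.Agent.H23.BM
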