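import Pool.Agent.H23.BM.Game

/-!
# The Banach-Mazur game: pruning a pi-base
-/

set_option autoImplicit false

namespace Pool.Agent.H23.BM

open Cardinal Set

variable {X : Type} [TopologicalSpace X] {κ : Cardinal.{0}}

theorem lev_eq (κ : Cardinal.{0}) (i : ℕ) : lev κ i = (Order.succ^[i]) κ := by
  induction i with
  | zero => rfl
  | succ i ih =>
    rw [Function.iterate_succ_apply']
    show Order.succ (lev κ i) = _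
    rw [ih]

/-- a `π`-base of size at most `κ^{+(N+1)}` contains one in which every member has at most `κ^{+N}`
supersets -/
theorem prune (hκ : ℵ₀ ≤ κ) (N : ℕ) (𝓑 : Set (Set X)) (hno : ∀ B ∈ 𝓑, NO B)
    (hbase : ∀ U, NO U → ∃ B ∈ 𝓑, B ⊆ U) (hc : #𝓑 ≤ lev κ (N + 1)) :
    ∃ 𝓒 : Set (Set X), PB 𝓒 (lev κ N) := by
  classical
  rw [← mk_K] at hc
  obtain ⟨g⟩ := hc
  let 𝓒 : Set (Set X) := {B | ∃ h : B ∈ 𝓑, ∀ B', ∀ h' : B' ∈ 𝓑, B' ⊆ B → g ⟨B, h⟩ ≤ g ⟨B', h'⟩}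
  refine ⟨𝓒, ⟨?_, ?_, ?_⟩⟩
  · rintro B ⟨h, -⟩
    exact hno B h
  · intro U hU
    have hwf : WellFounded ((· < ·) : K κ (N + 1) → K κ (N + 1) → Prop) := wellFounded_lt
    have hne : ({x | ∃ B, ∃ h : B ∈ 𝓑, B ⊆ U ∧ g ⟨B, h⟩ = x} : Set (K κ (N + 1))).Nonempty := by
      obtain ⟨B, hB, hBU⟩ := hbase U hU
      exact ⟨_, B, hB, hBU, rfl⟩
    obtain ⟨B, hB, hBU, hx⟩ := hwf.min_mem _ hne
    refine ⟨B, ⟨hB, ?_⟩, hBU⟩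
    intro B' hB' hBB
    rw [hx]
    have h1 : g ⟨B', hB'⟩ ∈ ({x | ∃ B, ∃ h : B ∈ 𝓑, B ⊆ U ∧ g ⟨B, h⟩ = x} : Set (K κ (N + 1))) :=
      ⟨B', hB', hBB.trans hBU, rfl⟩
    exact not_lt.1 (hwf.not_lt_min _ h1)
  · rintro B ⟨hB, hB'⟩
    refine le_trans ?_ (mk_Iic_K hκ N (g ⟨B, hB⟩))
    have h1 : ∀ V : ({V | V ∈ 𝓒 ∧ B ⊆ V} : Set (Set X)), ∃ h : (V : Set X) ∈ 𝓑,
        g ⟨V, h⟩ ≤ g ⟨B, hB⟩ := by
      rintro ⟨V, ⟨hV, hV'⟩, hBV⟩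
      exact ⟨hV, hV' B hB hBV⟩
    choose h2 h3 using h1
    refine Cardinal.mk_le_of_injective (f := fun V : ({V | V ∈ 𝓒 ∧ B ⊆ V} : Set (Set X)) =>
      (⟨g ⟨V, h2 V⟩, h3 V⟩ : (Iic (g ⟨B, hB⟩) : Set (K κ (N + 1))))) ?_
    intro V W hVW
    have h4 : g ⟨V, h2 V⟩ = g ⟨W, h2 W⟩ := congrArg (fun z : (Iic (g ⟨B, hB⟩) : Set _) => z.1) hVW
    have h5 := g.injective h4
    apply Subtype.ext
    exact congrArg (fun z : 𝓑 => z.1) h5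

theorem final (κ : Cardinal.{0}) (hκ : ℵ₀ ≤ κ) (n : ℕ) (hn : 1 ≤ n) (𝓑 : Set (Set X))
    (hopen : ∀ B ∈ 𝓑, IsOpen B ∧ B.Nonempty)
    (hbase : ∀ U : Set X, IsOpen U → U.Nonempty → ∃ B ∈ 𝓑, B ⊆ U)
    (hsize : #𝓑 ≤ (Order.succ^[n]) κ ∨ ∀ B ∈ 𝓑, #{V | V ∈ 𝓑 ∧ B ⊆ V} ≤ (Order.succ^[n - 1]) κ)
    (hcell : ∀ U : Set X, IsOpen U → U.Nonempty →
      (∀ V, IsOpen V → V.Nonempty → V ⊆ U → ∃ F : Set (Set X), F.Infinite ∧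
        (∀ W ∈ F, IsOpen W ∧ W.Nonempty ∧ W ⊆ V) ∧ F.PairwiseDisjoint id) →
      (∃ F : Set (Set X), κ ≤ #F ∧ (∀ W ∈ F, IsOpen W ∧ W.Nonempty ∧ W ⊆ U) ∧
        F.PairwiseDisjoint id) ∧
      ∀ i, 1 ≤ i → i < n → ∃ (I : Type) (G : I → Set X), #I = (Order.succ^[i]) κ ∧
        (∀ ξ, IsOpen (G ξ) ∧ (G ξ).Nonempty ∧ G ξ ⊆ U) ∧
        ∀ W : Set X, IsOpen W → W.Nonempty → #{ξ | W ⊆ G ξ} < (Order.succ^[i]) κ)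
    (hW : WinningStrategy X) : WinningTactic X (n + 1) := by
  obtain ⟨N, rfl⟩ : ∃ N, n = N + 1 := ⟨n - 1, by omega⟩
  have hPB : ∃ 𝓒 : Set (Set X), PB 𝓒 (lev κ N) := by
    rcases hsize with h | h
    · rw [← lev_eq] at h
      exact prune hκ N 𝓑 hopen (fun U hU => hbase U hU.1 hU.2) h
    · rw [Nat.add_sub_cancel, ← lev_eq] at h
      exact ⟨𝓑, hopen, fun U hU => hbase U hU.1 hU.2, h⟩
  obtain ⟨𝓒, hC⟩ := hPB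
  have hinf : ∀ U : Set X, Inf U → ∀ V, IsOpen V → V.Nonempty → V ⊆ U → ∃ F : Set (Set X),
      F.Infinite ∧ (∀ W ∈ F, IsOpen W ∧ W.Nonempty ∧ W ⊆ V) ∧ F.PairwiseDisjoint id := by
    intro U hU V hV hV' hVU
    obtain ⟨F, hF1, hF2, hF3⟩ := hU V ⟨hV, hV'⟩ hVU
    refine ⟨F, ?_, fun W hW => ⟨(hF2 W hW).1.1, (hF2 W hW).1.2, (hF2 W hW).2⟩, hF3⟩
    rw [← Set.infinite_coe_iff, Cardinal.infinite_iff]
    exact hF1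
  refine tactic_of (by omega) (main hκ (WS_of hW) N hC ?_ ?_)
  · intro U hU hU'
    obtain ⟨⟨F, hF1, hF2, hF3⟩, -⟩ := hcell U hU.1 hU.2 (hinf U hU')
    exact ⟨F, hF1, fun W hW => ⟨⟨(hF2 W hW).1, (hF2 W hW).2.1⟩, (hF2 W hW).2.2⟩, hF3⟩
  · intro i hi1 hi2 U hU hU'
    obtain ⟨-, h⟩ := hcell U hU.1 hU.2 (hinf U hU')
    obtain ⟨I, G, hI, hG1, hG2⟩ := h i hi1 (by omega)
    rw [← lev_eq] at hI hG2
    rw [← mk_K] at hI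
    obtain ⟨e⟩ := Cardinal.eq.1 hI
    refine ⟨fun ξ => G (e.symm ξ), fun ξ => ⟨⟨(hG1 _).1, (hG1 _).2.1⟩, (hG1 _).2.2⟩, ?_⟩
    intro W hWo
    refine lt_of_le_of_lt ?_ (hG2 W hWo.1 hWo.2)
    refine Cardinal.mk_le_of_injective (f := fun ξ : ({ξ | W ⊆ G (e.symm ξ)} : Set (K κ i)) =>
      (⟨e.symm ξ.1, ξ.2⟩ : ({ξ | W ⊆ G ξ} : Set I))) ?_
    intro ξ η hξη
    apply Subtype.ext
    apply e.symm.injective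
    exact congrArg (fun z : ({ξ | W ⊆ G ξ} : Set I) => z.1) hξη

end Pool.Agent.H23.BM
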