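import Pool.Agent.H23.BM.Local

/-!
# The Banach-Mazur game: strategies and tactics in the usual format
-/

set_option autoImplicit false

namespace Pool.Agent.H23.BM

open Cardinal Set

/-- II has a winning strategy in the Banach-Mazur game on `X` (the reply depends on the list of all
moves made so far by I). -/
def WinningStrategy (X : Type) [TopologicalSpace X] : Prop :=
  ∃ σ : List (Set X) → Set X,
    (∀ (U : ℕ → Set X) (n : ℕ), IsOpen (U 0) → (U 0).Nonempty →
      (∀ m < n, IsOpen (U (m + 1)) ∧ (U (m + 1)).Nonempty ∧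
        U (m + 1) ⊆ σ ((List.range (m + 1)).map U)) →
      (IsOpen (σ ((List.range (n + 1)).map U)) ∧ (σ ((List.range (n + 1)).map U)).Nonempty ∧
        σ ((List.range (n + 1)).map U) ⊆ U n)) ∧
    (∀ U : ℕ → Set X, IsOpen (U 0) → (U 0).Nonempty →
      (∀ m : ℕ, IsOpen (U (m + 1)) ∧ (U (m + 1)).Nonempty ∧
        U (m + 1) ⊆ σ ((List.range (m + 1)).map U)) →
      (⋂ n : ℕ, σ ((List.range (n + 1)).map U)).Nonempty)

/-- II has a winning `k`-tactic in the Banach-Mazur game on `X` (the reply depends on the list of the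
last `min (n + 1) k` moves of I). -/
def WinningTactic (X : Type) [TopologicalSpace X] (k : ℕ) : Prop :=
  ∃ σ : List (Set X) → Set X,
    (∀ (U : ℕ → Set X) (n : ℕ), IsOpen (U 0) → (U 0).Nonempty →
      (∀ m < n, IsOpen (U (m + 1)) ∧ (U (m + 1)).Nonempty ∧
        U (m + 1) ⊆ σ ((List.range (min (m + 1) k)).map
          (fun i => U (m + 1 - min (m + 1) k + i)))) →
      (IsOpen (σ ((List.range (min (n + 1) k)).map
          (fun i => U (n + 1 - min (n + 1) k + i)))) ∧
        (σ ((List.range (min (n + 1) k)).map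
          (fun i => U (n + 1 - min (n + 1) k + i)))).Nonempty ∧
        σ ((List.range (min (n + 1) k)).map
          (fun i => U (n + 1 - min (n + 1) k + i))) ⊆ U n)) ∧
    (∀ U : ℕ → Set X, IsOpen (U 0) → (U 0).Nonempty →
      (∀ m : ℕ, IsOpen (U (m + 1)) ∧ (U (m + 1)).Nonempty ∧
        U (m + 1) ⊆ σ ((List.range (min (m + 1) k)).map
          (fun i => U (m + 1 - min (m + 1) k + i)))) →
      (⋂ n : ℕ, σ ((List.range (min (n + 1) k)).map
        (fun i => U (n + 1 - min (n + 1) k + i)))).Nonempty)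

theorem hist_eq {α : Type} (U : ℕ → α) (n : ℕ) :
    hist U n = (List.range (n + 1)).map (fun i => U (n - i)) := by
  induction n with
  | zero => rfl
  | succ n ih =>
    rw [List.range_succ_eq_map, List.map_cons, List.map_map]
    show U (n + 1) :: hist U n = _
    rw [ih]
    congr 1
    apply List.map_congr_left
    intro i _
    show U (n - i) = U (n + 1 - (i + 1))
    congr 1
    omega

theorem hist_reverse {α : Type} (U : ℕ → α) (n : ℕ) :
    (hist U n).reverse = (List.range (n + 1)).map U := by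
  induction n with
  | zero => rfl
  | succ n ih =>
    show (U (n + 1) :: hist U n).reverse = _
    rw [List.reverse_cons, ih, List.range_succ (n := n + 1), List.map_append]
    rfl

theorem window_eq {α : Type} (U : ℕ → α) (n k : ℕ) :
    ((List.range (min (n + 1) k)).map (fun i => U (n + 1 - min (n + 1) k + i))).reverse =
      (hist U n).take k := by
  rw [hist_eq, ← List.map_take, List.take_range]
  apply List.ext_getElem
  · simp [min_comm]
  · intro i h1 h2
    simp only [List.getElem_reverse, List.getElem_map, List.getElem_range, List.length_map,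
      List.length_range]
    congr 1
    simp only [List.length_reverse, List.length_map, List.length_range] at h1
    omega

variable {X : Type} [TopologicalSpace X]

/-- normal form of a winning strategy -/
theorem WS_of (h : WinningStrategy X) : WS X := by
  classical
  obtain ⟨σ, h1, h2⟩ := h
  let Leg : List (Set X) → Prop := fun l => ∃ (U : ℕ → Set X) (n : ℕ), l = hist U n ∧
    IsOpen (U 0) ∧ (U 0).Nonempty ∧ ∀ m < n, IsOpen (U (m + 1)) ∧ (U (m + 1)).Nonempty ∧
        U (m + 1) ⊆ σ ((List.range (m + 1)).map U)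
  let s : List (Set X) → Set X := fun l => if Leg l then σ l.reverse else l.headI
  have hs1 : ∀ l, Leg l → s l = σ l.reverse := fun l hl => if_pos hl
  have hs2 : ∀ l, ¬ Leg l → s l = l.headI := fun l hl => if_neg hl
  refine ⟨s, ?_, ?_⟩
  · intro U l hU
    by_cases hL : Leg (U :: l)
    · rw [hs1 _ hL]
      obtain ⟨A, n, hA, hA0, hA0', hA1⟩ := hL
      rw [hA, hist_reverse]
      obtain ⟨a, b, c⟩ := h1 A n hA0 hA0' hA1
      obtain ⟨l', hl'⟩ := hist_cons A n
      rw [hl'] at hA
      have : U = A n := (List.cons_eq_cons.1 hA).1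
      rw [this]
      exact ⟨⟨a, b⟩, c⟩
    · rw [hs2 _ hL]
      exact ⟨hU, le_rfl⟩
  · intro U hU hs
    have key : ∀ n, ∀ m < n, IsOpen (U (m + 1)) ∧ (U (m + 1)).Nonempty ∧
        U (m + 1) ⊆ σ ((List.range (m + 1)).map U) := by
      intro n
      induction n with
      | zero => intro m hm; omega
      | succ n ih =>
        intro m hm
        rcases Nat.lt_succ_iff_lt_or_eq.1 hm with hm | rfl
        · exact ih m hm
        · refine ⟨(hU _).1, (hU _).2, ?_⟩
          have h3 := hs m
          rw [hs1 _ ⟨U, m, rfl, (hU 0).1, (hU 0).2, ih⟩, hist_reverse] at h3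
          exact h3
    obtain ⟨x, hx⟩ := h2 U (hU 0).1 (hU 0).2 fun m => key (m + 1) m (Nat.lt_succ_self m)
    rw [mem_iInter] at hx
    refine ⟨x, mem_iInter.2 fun n => ?_⟩
    exact (h1 U n (hU 0).1 (hU 0).2 (key n)).2.2 (hx n)

/-- from a tactic in normal form -/
theorem tactic_of {k : ℕ} (hk : 1 ≤ k) (h : ∃ τ : List (Set X) → Set X,
      (∀ U l, NO U → NO (τ (U :: l)) ∧ τ (U :: l) ⊆ U) ∧
      ∀ U : ℕ → Set X, (∀ n, NO (U n)) → (∀ n, U (n + 1) ⊆ τ ((hist U n).take k)) →
        (⋂ n, U n).Nonempty) : WinningTactic X k := by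
  obtain ⟨τ, h1, h2⟩ := h
  refine ⟨fun w => τ w.reverse, ?_, ?_⟩
  · intro U n h0 h0' hm
    simp only [window_eq] at hm ⊢
    obtain ⟨l, hl⟩ := hist_take U n k hk
    rw [hl]
    have hn : NO (U n) := by
      cases n with
      | zero => exact ⟨h0, h0'⟩
      | succ n => exact ⟨(hm n (Nat.lt_succ_self n)).1, (hm n (Nat.lt_succ_self n)).2.1⟩
    obtain ⟨⟨a, b⟩, c⟩ := h1 (U n) l hn
    exact ⟨a, b, c⟩
  · intro U h0 h0' hm
    simp only [window_eq] at hm ⊢
    have hU : ∀ n, NO (U n) := by
      intro n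
      cases n with
      | zero => exact ⟨h0, h0'⟩
      | succ n => exact ⟨(hm n).1, (hm n).2.1⟩
    obtain ⟨x, hx⟩ := h2 U hU fun n => (hm n).2.2
    rw [mem_iInter] at hx
    exact ⟨x, mem_iInter.2 fun n => (hm n).2.2 (hx (n + 1))⟩

end Pool.Agent.H23.BM
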