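import Pool.Agent.H23.BM.Space

/-!
# The Banach-Mazur game: choice of the piece
-/

set_option autoImplicit false

namespace Pool.Agent.H23.BM

open Cardinal Set

variable {X : Type} [TopologicalSpace X] {κ : Cardinal.{0}}

/-- every nonempty open subset of `V` contains an infinite cellular family -/
def Inf (V : Set X) : Prop := ∀ W, NO W → W ⊆ V → Cell ℵ₀ W

theorem Inf.mono {U V : Set X} (h : Inf U) (hV : V ⊆ U) : Inf V :=
  fun W hW hWV => h W hW (hWV.trans hV)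

/-- dichotomy -/
theorem dichotomy {U : Set X} (hU : NO U) :
    (∃ V, NO V ∧ V ⊆ U ∧ ∀ A B, NO A → NO B → A ⊆ V → B ⊆ V → (A ∩ B).Nonempty) ∨ Inf U := by
  classical
  by_cases h : ∃ V, NO V ∧ V ⊆ U ∧ ∀ A B, NO A → NO B → A ⊆ V → B ⊆ V → (A ∩ B).Nonempty
  · exact Or.inl h
  · refine Or.inr ?_
    push Not at h
    choose! a b ha hb haV hbV hab using h
    intro W hW hWU
    let B : ℕ → Set X := fun n => Nat.rec W (fun _ V => b V) n
    have hB : ∀ n, NO (B n) ∧ B n ⊆ U := by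
      intro n
      induction n with
      | zero => exact ⟨hW, hWU⟩
      | succ n ih => exact ⟨hb _ ih.1 ih.2, (hbV _ ih.1 ih.2).trans ih.2⟩
    have hBW : ∀ m d, B (m + d) ⊆ B m := by
      intro m d
      induction d with
      | zero => exact le_rfl
      | succ d ih => exact (hbV _ (hB (m + d)).1 (hB (m + d)).2).trans ih
    let A : ℕ → Set X := fun n => a (B n)
    have hA : ∀ n, NO (A n) ∧ A n ⊆ B n := fun n =>
      ⟨ha _ (hB n).1 (hB n).2, haV _ (hB n).1 (hB n).2⟩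
    have hdis : ∀ m n, m < n → Disjoint (A m) (A n) := by
      intro m n hmn
      obtain ⟨d, rfl⟩ : ∃ d, n = m + 1 + d := ⟨n - (m + 1), by omega⟩
      rw [Set.disjoint_iff_inter_eq_empty, ← Set.subset_empty_iff, ← hab _ (hB m).1 (hB m).2]
      exact inter_subset_inter_right _ ((hA _).2.trans (hBW _ _))
    have hdis' : ∀ m n, m ≠ n → Disjoint (A m) (A n) := by
      intro m n hmn
      rcases lt_or_gt_of_ne hmn with h1 | h1
      · exact hdis m n h1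
      · exact (hdis n m h1).symm
    have hinj : Function.Injective A := by
      intro m n hmn
      by_contra hne
      have h1 := hdis' m n hne
      rw [hmn] at h1
      obtain ⟨x, hx⟩ := (hA n).1.2
      exact Set.disjoint_left.1 h1 hx hx
    refine ⟨range A, ?_, ?_, ?_⟩
    · rw [mk_range_eq A hinj, mk_nat]
    · rintro _ ⟨n, rfl⟩
      refine ⟨(hA n).1, (hA n).2.trans ?_⟩
      have := hBW 0 n
      rwa [Nat.zero_add] at this
    · rintro _ ⟨m, rfl⟩ _ ⟨n, rfl⟩ hne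
      exact hdis' m n fun h => hne (by rw [h])

/-- choice of the level -/
theorem exists_level (N : ℕ) {U : Set X} (hU : NO U) (h0 : ∀ W, NO W → W ⊆ U → Cell κ W) :
    ∃ V j, NO V ∧ V ⊆ U ∧ j ≤ N ∧ (∀ W, NO W → W ⊆ V → Cell (lev κ j) W) ∧
      (j = N ∨ ¬ Cell (lev κ (j + 1)) V) := by
  have key : ∀ m, m ≤ N → ∀ V, NO V → V ⊆ U → (∀ W, NO W → W ⊆ V → Cell (lev κ (N - m)) W) →
      ∃ V j, NO V ∧ V ⊆ U ∧ j ≤ N ∧ (∀ W, NO W → W ⊆ V → Cell (lev κ j) W) ∧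
        (j = N ∨ ¬ Cell (lev κ (j + 1)) V) := by
    intro m
    induction m with
    | zero => intro _ V hV hVU h; exact ⟨V, N, hV, hVU, le_rfl, h, Or.inl rfl⟩
    | succ m ih =>
      intro hm V hV hVU h
      by_cases h1 : ∀ W, NO W → W ⊆ V → Cell (lev κ (N - m)) W
      · exact ih (by omega) V hV hVU h1
      · push Not at h1
        obtain ⟨W, hW, hWV, h2⟩ := h1
        refine ⟨W, N - (m + 1), hW, hWV.trans hVU, by omega,
          fun W' hW' hW'W => h W' hW' (hW'W.trans hWV), Or.inr ?_⟩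
        rwa [show N - (m + 1) + 1 = N - m by omega]
  refine key N le_rfl U hU le_rfl ?_
  rw [Nat.sub_self]
  exact h0

/-- calibre failure gives a monotone unbounded function on a smaller piece -/
theorem exists_rank (hκ : ℵ₀ ≤ κ) (i : ℕ) {V : Set X} (hV : NO V)
    (hc : ¬ Cell (lev κ (i + 1)) V) (G : K κ (i + 1) → Set X)
    (hG : ∀ ξ, NO (G ξ) ∧ G ξ ⊆ V)
    (hG' : ∀ W, NO W → #{ξ | W ⊆ G ξ} < lev κ (i + 1)) :
    ∃ V', NO V' ∧ V' ⊆ V ∧ ∃ f : Set X → K κ (i + 1),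
      (∀ W W', NO W → NO W' → W' ⊆ W → f W ≤ f W') ∧
      ∀ W γ, NO W → W ⊆ V' → ∃ W', NO W' ∧ W' ⊆ W ∧ γ ≤ f W' := by
  classical
  -- the piece
  have h1 : ∃ V', NO V' ∧ V' ⊆ V ∧ ∀ W, NO W → W ⊆ V' → ∀ ξ, ∃ η ≥ ξ, (W ∩ G η).Nonempty := by
    by_contra hcon
    push Not at hcon
    obtain ⟨F, hF⟩ : ∃ F : Set (Set X), Maximal
        (fun F : Set (Set X) => (∀ W ∈ F, NO W ∧ W ⊆ V ∧ ∃ ξ, ∀ η ≥ ξ, W ∩ G η = ∅) ∧
          F.PairwiseDisjoint id) F := by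
      apply zorn_subset
      intro c hc hchain
      refine ⟨⋃₀ c, ⟨?_, ?_⟩, fun s hs => subset_sUnion_of_mem hs⟩
      · rintro W ⟨s, hs, hW⟩
        exact (hc hs).1 W hW
      · exact (pairwiseDisjoint_sUnion hchain.directedOn).2 fun s hs => (hc hs).2
    have hdense : ∀ U : Set X, NO U → U ⊆ V → ∃ W ∈ F, (U ∩ W).Nonempty := by
      intro U hU hUV
      by_contra hcon2
      push Not at hcon2
      obtain ⟨W, hW, hWU, ξ, hξ⟩ := hcon U hU hUV
      have hWF : W ∈ F := by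
        have h1 : insert W F ⊆ F := by
          apply hF.2 (y := insert W F) ⟨?_, ?_⟩ (subset_insert _ _)
          · intro W' hW'
            rcases hW' with rfl | hW'
            · exact ⟨hW, hWU.trans hUV, ξ, hξ⟩
            · exact hF.1.1 W' hW'
          · rw [pairwiseDisjoint_insert]
            refine ⟨hF.1.2, fun W' hW' _ => ?_⟩
            show Disjoint W W'
            rw [Set.disjoint_iff_inter_eq_empty]
            have h2 := hcon2 W' hW'
            rw [← Set.subset_empty_iff, ← h2]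
            exact inter_subset_inter_left _ hWU
        exact h1 (mem_insert _ _)
      have h2 := hcon2 W hWF
      obtain ⟨x, hx⟩ := hW.2
      have : x ∈ U ∩ W := ⟨hWU hx, hx⟩
      rw [h2] at this
      exact this
    have hFc : #F < lev κ (i + 1) := by
      by_contra hcon2
      exact hc ⟨F, not_lt.1 hcon2, fun W hW => ⟨(hF.1.1 W hW).1, (hF.1.1 W hW).2.1⟩, hF.1.2⟩
    have hξ : ∀ W : F, ∃ ξ, ∀ η ≥ ξ, (W : Set X) ∩ G η = ∅ := fun W => (hF.1.1 W W.2).2.2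
    choose ξ hξ using hξ
    obtain ⟨b, hb⟩ := exists_bound hκ i (range ξ) (mk_range_le.trans_lt hFc)
    obtain ⟨W, hW, hne⟩ := hdense (G b) (hG b).1 (hG b).2
    have h2 := hξ ⟨W, hW⟩ b (hb _ (mem_range_self _)).le
    rw [inter_comm] at hne
    simp only at h2
    rw [h2] at hne
    exact not_nonempty_empty hne
  obtain ⟨V', hV', hV'V, h2⟩ := h1
  refine ⟨V', hV', hV'V, ?_⟩
  have hK := K_nonempty hκ (i + 1)
  have hb : ∀ W, NO W → ∃ x, ∀ y ∈ {ξ | W ⊆ G ξ}, y < x := fun W hW =>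
    exists_bound hκ i _ (hG' W hW)
  have hwf : WellFounded ((· < ·) : K κ (i + 1) → K κ (i + 1) → Prop) := wellFounded_lt
  let f : Set X → K κ (i + 1) := fun W =>
    if h : ∃ x, ∀ y ∈ {ξ | W ⊆ G ξ}, y < x then hwf.min {x | ∀ y ∈ {ξ | W ⊆ G ξ}, y < x} h
    else Classical.arbitrary _
  have hf1 : ∀ W, NO W → ∀ y, W ⊆ G y → y < f W := by
    intro W hW y hy
    show y < if h : ∃ x, ∀ y ∈ {ξ | W ⊆ G ξ}, y < x then
      hwf.min {x | ∀ y ∈ {ξ | W ⊆ G ξ}, y < x} h else Classical.arbitrary _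
    rw [dif_pos (hb W hW)]
    exact hwf.min_mem {x | ∀ y ∈ {ξ | W ⊆ G ξ}, y < x} (hb W hW) y hy
  have hf2 : ∀ W, NO W → ∀ x, (∀ y, W ⊆ G y → y < x) → f W ≤ x := by
    intro W hW x hx
    show (if h : ∃ x, ∀ y ∈ {ξ | W ⊆ G ξ}, y < x then
      hwf.min {x | ∀ y ∈ {ξ | W ⊆ G ξ}, y < x} h else Classical.arbitrary _) ≤ x
    rw [dif_pos (hb W hW)]
    exact not_lt.1 (hwf.not_lt_min {x | ∀ y ∈ {ξ | W ⊆ G ξ}, y < x} hx)
  refine ⟨f, ?_, ?_⟩
  · intro W W' hW hW' hWW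
    exact hf2 W hW _ fun y hy => hf1 W' hW' y (hWW.trans hy)
  · intro W γ hW hWV
    obtain ⟨η, hη, hne⟩ := h2 W hW hWV γ
    refine ⟨W ∩ G η, ⟨hW.1.inter (hG η).1.1, hne⟩, inter_subset_left, ?_⟩
    exact hη.le.trans (hf1 _ ⟨hW.1.inter (hG η).1.1, hne⟩ η inter_subset_right).le

/-- all the rank functions at once -/
theorem exists_ranks (hκ : ℵ₀ ≤ κ) (j N : ℕ) {V : Set X} (hV : NO V)
    (hc : j = N ∨ ¬ Cell (lev κ (j + 1)) V)
    (hcal : ∀ i, j < i → i ≤ N → ∀ U : Set X, NO U → U ⊆ V → ∃ G : K κ i → Set X,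
      (∀ ξ, NO (G ξ) ∧ G ξ ⊆ U) ∧ ∀ W, NO W → #{ξ | W ⊆ G ξ} < lev κ i) :
    ∃ V', NO V' ∧ V' ⊆ V ∧ ∀ i, j < i → i ≤ N → ∃ f : Set X → K κ i,
      (∀ W W', NO W → NO W' → W' ⊆ W → f W ≤ f W') ∧
      ∀ W γ, NO W → W ⊆ V' → ∃ W', NO W' ∧ W' ⊆ W ∧ γ ≤ f W' := by
  have key : ∀ m, j + m ≤ N → ∃ V', NO V' ∧ V' ⊆ V ∧ ∀ i, j < i → i ≤ j + m →
      ∃ f : Set X → K κ i, (∀ W W', NO W → NO W' → W' ⊆ W → f W ≤ f W') ∧
      ∀ W γ, NO W → W ⊆ V' → ∃ W', NO W' ∧ W' ⊆ W ∧ γ ≤ f W' := by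
    intro m
    induction m with
    | zero => intro _; exact ⟨V, hV, le_rfl, fun i h1 h2 => by omega⟩
    | succ m ih =>
      intro hm
      obtain ⟨V1, hV1, hV1V, h1⟩ := ih (by omega)
      have hc' : ¬ Cell (lev κ (j + m + 1)) V1 := by
        rcases hc with hc | hc
        · omega
        · exact fun h => hc ((h.mono hV1V).le (lev_mono (by omega)))
      obtain ⟨G, hG, hG'⟩ := hcal (j + m + 1) (by omega) (by omega) V1 hV1 hV1V
      obtain ⟨V2, hV2, hV2V, f, hf1, hf2⟩ := exists_rank hκ (j + m) hV1 hc' G hG hG'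
      refine ⟨V2, hV2, hV2V.trans hV1V, fun i hi1 hi2 => ?_⟩
      rcases Nat.lt_or_ge i (j + m + 1) with hi | hi
      · obtain ⟨f', hf1', hf2'⟩ := h1 i hi1 (by omega)
        exact ⟨f', hf1', fun W γ hW hWV => hf2' W γ hW (hWV.trans hV2V)⟩
      · obtain rfl : i = j + m + 1 := by omega
        exact ⟨f, hf1, hf2⟩
  rcases Nat.lt_or_ge N j with hN | hN
  · exact ⟨V, hV, le_rfl, fun i h1 h2 => by omega⟩
  · obtain ⟨V', hV', hVV, h⟩ := key (N - j) (by omega)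
    exact ⟨V', hV', hVV, fun i h1 h2 => h i h1 (by omega)⟩

end Pool.Agent.H23.BM
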