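import Pool.Agent.H23.BM.Levels

/-!
# The Banach-Mazur game: tactics on a good piece
-/

set_option autoImplicit false

namespace Pool.Agent.H23.BM

open Cardinal Set

variable {X : Type} [TopologicalSpace X] {κ : Cardinal.{0}}

/-- a `π`-base such that every member has at most `c` supersets in it -/
structure PB (𝓑 : Set (Set X)) (c : Cardinal.{0}) : Prop where
  no : ∀ B ∈ 𝓑, NO B
  base : ∀ U, NO U → ∃ B ∈ 𝓑, B ⊆ U
  sup : ∀ B ∈ 𝓑, #{V | V ∈ 𝓑 ∧ B ⊆ V} ≤ c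

theorem LT_good (hκ : ℵ₀ ≤ κ) (hW : WS X) {N j : ℕ} (hj : j ≤ N) {𝓑 : Set (Set X)}
    (hB : PB 𝓑 (lev κ N)) {V : Set X} (hV : NO V)
    (hcell : ∀ W, NO W → W ⊆ V → Cell (lev κ j) W)
    (hf : ∀ i, j < i → i ≤ N → ∃ f : Set X → K κ i,
      (∀ W W', NO W → NO W' → W' ⊆ W → f W ≤ f W') ∧
      ∀ W γ, NO W → W ⊆ V → ∃ W', NO W' ∧ W' ⊆ W ∧ γ ≤ f W') :
    LT V (N - j + 2) := by
  classical
  let P : Type := {B : Set X // B ∈ 𝓑 ∧ B ⊆ V}
  have hP : ∀ p : P, NO p.1 := fun p => hB.no _ p.2.1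
  have hpick : ∀ W : Set X, NO W → W ⊆ V → ∃ p : P, p.1 ⊆ W := by
    intro W hWo hWV
    obtain ⟨B, hB1, hB2⟩ := hB.base W hWo
    exact ⟨⟨B, hB1, hB2.trans hWV⟩, hB2⟩
  obtain ⟨p0, -⟩ := hpick V hV le_rfl
  have : Nonempty P := ⟨p0⟩
  have h1 : ∀ p : P, #{x : P // p ≤ x} ≤ lev κ N := by
    intro p
    refine le_trans ?_ (hB.sup p.1 p.2.1)
    refine Cardinal.mk_le_of_injective (f := fun x : {x : P // p ≤ x} =>
      (⟨x.1.1, x.1.2.1, x.2⟩ : ({V | V ∈ 𝓑 ∧ p.1 ⊆ V} : Set (Set X)))) ?_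
    intro x y hxy
    apply Subtype.ext
    apply Subtype.ext
    exact congrArg (fun z : ({V | V ∈ 𝓑 ∧ p.1 ⊆ V} : Set (Set X)) => z.1) hxy
  have h2 : Dec P (N - j + 1) (K κ j) := by
    refine dec_chain hκ N h1 j hj fun i hi1 hi2 => ?_
    obtain ⟨f, hf1, hf2⟩ := hf i hi1 hi2
    refine ⟨fun p => f p.1, fun p q hqp => hf1 _ _ (hP p) (hP q) hqp, ?_⟩
    intro p γ
    obtain ⟨W', hW', hWp, hγ⟩ := hf2 p.1 γ (hP p) p.2.2
    obtain ⟨q, hq⟩ := hpick W' hW' (hWp.trans p.2.2)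
    exact ⟨q, hq.trans hWp, hγ.trans (hf1 _ _ hW' (hP q) hq)⟩
  have h3 : ∀ p : P, ∃ C : K κ j → P, (∀ m, C m ≤ p) ∧
      ∀ m m' q, q ≤ C m → q ≤ C m' → m = m' := by
    intro p
    obtain ⟨F, hF1, hF2, hF3⟩ := hcell p.1 (hP p) p.2.2
    rw [← mk_K] at hF1
    obtain ⟨g⟩ := hF1
    have h4 : ∀ m, ∃ q : P, q.1 ⊆ (g m : Set X) := fun m =>
      hpick _ (hF2 _ (g m).2).1 ((hF2 _ (g m).2).2.trans p.2.2)
    choose C hC using h4
    refine ⟨C, fun m => (hC m).trans (hF2 _ (g m).2).2, ?_⟩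
    intro m m' q hq hq'
    by_contra hne
    have h5 : (g m : Set X) ≠ g m' := fun h => hne (g.injective (Subtype.ext h))
    have h6 := hF3 (g m).2 (g m').2 h5
    obtain ⟨x, hx⟩ := (hP q).2
    exact Set.disjoint_left.1 h6 (hC m (hq hx)) (hC m' (hq' hx))
  choose C hC hC' using h3
  obtain ⟨σ, hσ1, hσ2⟩ := hW
  let pk : Set X → P := fun W => if h : NO W ∧ W ⊆ V then (hpick W h.1 h.2).choose else p0
  have hpk : ∀ W, NO W → W ⊆ V → (pk W).1 ⊆ W := by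
    intro W hWo hWV
    show (if h : NO W ∧ W ⊆ V then (hpick W h.1 h.2).choose else p0).1 ⊆ W
    rw [dif_pos ⟨hWo, hWV⟩]
    exact (hpick W hWo hWV).choose_spec
  let σP : List P → P := fun l => pk (σ (l.map Subtype.val))
  have hσP : ∀ p l, (σP (p :: l)).1 ⊆ σ ((p :: l).map Subtype.val) := by
    intro p l
    have h5 := hσ1 p.1 (l.map Subtype.val) (hP p)
    exact hpk _ h5.1 (h5.2.trans p.2.2)
  have hKne := K_nonempty hκ j
  obtain ⟨τ, hτ1, hτ2⟩ := dec_tactic (Nat.le_add_left 1 (N - j)) h2 C hC hC'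
    (fun U => (⋂ n, (U n).1).Nonempty)
    (by
      rintro U U' hU ⟨x, hx⟩
      rw [mem_iInter] at hx
      exact ⟨x, mem_iInter.2 fun n => hU n (hx n)⟩)
    σP
    (by
      intro p l
      have h5 := hσ1 p.1 (l.map Subtype.val) (hP p)
      exact (hσP p l).trans h5.2)
    (by
      intro U hU
      refine hσ2 (fun n => (U n).1) (fun n => hP _) fun n => ?_
      have h5 : U (n + 1) ≤ σP (hist U n) := hU n
      obtain ⟨l, hl⟩ := hist_cons U n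
      have h6 : (σP (hist U n)).1 ⊆ σ ((hist U n).map Subtype.val) := by
        rw [hl]; exact hσP _ _
      rw [hist_map] at h6
      exact Set.Subset.trans h5 h6)
  let β : Set X → P := fun U => pk (U ∩ V)
  have hβ : ∀ U, IsOpen U → (U ∩ V).Nonempty → (β U).1 ⊆ U ∩ V := fun U hU hUV =>
    hpk _ ⟨hU.inter hV.1, hUV⟩ inter_subset_right
  have hT : ∀ U l, IsOpen U → (U ∩ V).Nonempty →
      NO (τ ((U :: l).map β)).1 ∧ (τ ((U :: l).map β)).1 ⊆ U ∩ V := by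
    intro U l hU hUV
    refine ⟨hP _, Set.Subset.trans ?_ (hβ U hU hUV)⟩
    exact hτ1 (β U) (l.map β)
  refine ⟨fun l => (τ (l.map β)).1, hT, ?_⟩
  intro U hU h0 hs
  have hst := LT_stay (k := N - j + 2) (by omega) (τ := fun l => (τ (l.map β)).1) hT hU h0 hs
  obtain ⟨x, hx⟩ := hτ2 (fun n => β (U n)) fun n => by
    have h5 : (β (U (n + 1))).1 ⊆ U (n + 1) :=
      (hβ _ (hU _).1 (hst (n + 1)).1).trans inter_subset_left
    have h6 := h5.trans (hs n)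
    simp only at h6
    rw [List.map_take, hist_map] at h6
    exact h6
  rw [mem_iInter] at hx
  exact ⟨x, mem_iInter.2 fun n => (hβ _ (hU _).1 (hst n).1 (hx n)).1⟩

/-- the main theorem in normal form -/
theorem main (hκ : ℵ₀ ≤ κ) (hW : WS X) (N : ℕ) {𝓑 : Set (Set X)} (hB : PB 𝓑 (lev κ N))
    (hcell : ∀ U : Set X, NO U → Inf U → Cell κ U)
    (hcal : ∀ i, 0 < i → i ≤ N → ∀ U : Set X, NO U → Inf U → ∃ G : K κ i → Set X,
      (∀ ξ, NO (G ξ) ∧ G ξ ⊆ U) ∧ ∀ W, NO W → #{ξ | W ⊆ G ξ} < lev κ i) :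
    ∃ τ : List (Set X) → Set X, (∀ U l, NO U → NO (τ (U :: l)) ∧ τ (U :: l) ⊆ U) ∧
      ∀ U : ℕ → Set X, (∀ n, NO (U n)) → (∀ n, U (n + 1) ⊆ τ ((hist U n).take (N + 2))) →
        (⋂ n, U n).Nonempty := by
  refine LT_global (N + 2) (by omega) fun U hU => ?_
  rcases dichotomy hU with ⟨V, hV, hVU, hh⟩ | hinf
  · exact ⟨V, hV, hVU, (LT_hyper hW hV hh).mono (by omega) le_rfl⟩
  · obtain ⟨V, j, hV, hVU, hj, hc1, hc2⟩ := exists_level (κ := κ) N hU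
      fun W hWo hWU => hcell W hWo (hinf.mono hWU)
    obtain ⟨V', hV', hVV, hf⟩ := exists_ranks hκ j N hV hc2 fun i hi1 hi2 U' hU' hU'V =>
      hcal i (by omega) hi2 U' hU' (hinf.mono (hU'V.trans hVU))
    exact ⟨V', hV', hVV.trans hVU,
      (LT_good hκ hW hj hB hV' (fun W hWo hWV => hc1 W hWo (hWV.trans hVV)) hf).mono
        (by omega) (by omega)⟩

end Pool.Agent.H23.BM
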