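import Pool.Agent.H23.BM.Chain

/-!
# The Banach-Mazur game: local tactics
-/

set_option autoImplicit false

namespace Pool.Agent.H23.BM

open Cardinal Set

variable {X : Type} [TopologicalSpace X]

/-- nonempty open sets -/
def NO (U : Set X) : Prop := IsOpen U ∧ U.Nonempty

/-- `U` contains a cellular family of size at least `c` -/
def Cell (c : Cardinal.{0}) (U : Set X) : Prop :=
  ∃ F : Set (Set X), c ≤ #F ∧ (∀ W ∈ F, NO W ∧ W ⊆ U) ∧ F.PairwiseDisjoint id

theorem Cell.mono {c : Cardinal.{0}} {U V : Set X} (h : Cell c U) (hUV : U ⊆ V) : Cell c V := by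
  obtain ⟨F, h1, h2, h3⟩ := h
  exact ⟨F, h1, fun W hW => ⟨(h2 W hW).1, (h2 W hW).2.trans hUV⟩, h3⟩

theorem Cell.le {c c' : Cardinal.{0}} {U : Set X} (h : Cell c U) (hc : c' ≤ c) : Cell c' U := by
  obtain ⟨F, h1, h2, h3⟩ := h
  exact ⟨F, hc.trans h1, h2, h3⟩

/-- a winning strategy of II with full memory, in normal form -/
def WS (X : Type) [TopologicalSpace X] : Prop :=
  ∃ σ : List (Set X) → Set X, (∀ U l, NO U → NO (σ (U :: l)) ∧ σ (U :: l) ⊆ U) ∧
    ∀ U : ℕ → Set X, (∀ n, NO (U n)) → (∀ n, U (n + 1) ⊆ σ (hist U n)) → (⋂ n, U n).Nonempty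

/-- a winning `k`-tactic of II on the open set `V`, in normal form -/
def LT (V : Set X) (k : ℕ) : Prop :=
  ∃ τ : List (Set X) → Set X,
    (∀ U l, IsOpen U → (U ∩ V).Nonempty → NO (τ (U :: l)) ∧ τ (U :: l) ⊆ U ∩ V) ∧
    ∀ U : ℕ → Set X, (∀ n, NO (U n)) → (U 0 ∩ V).Nonempty →
      (∀ n, U (n + 1) ⊆ τ ((hist U n).take k)) → (⋂ n, U n).Nonempty

theorem LT.mono {V : Set X} {k k' : ℕ} (h : LT V k) (hk : k ≤ k') (hk1 : 1 ≤ k) : LT V k' := by
  obtain ⟨τ, h1, h2⟩ := h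
  refine ⟨fun l => τ (l.take k), ?_, ?_⟩
  · intro U l hU hUV
    obtain ⟨k, rfl⟩ : ∃ j, k = j + 1 := ⟨k - 1, by omega⟩
    show NO (τ ((U :: l).take (k + 1))) ∧ τ ((U :: l).take (k + 1)) ⊆ U ∩ V
    rw [List.take_succ_cons]
    exact h1 U _ hU hUV
  · intro U hU h0 hs
    refine h2 U hU h0 fun n => ?_
    have := hs n
    simp only [List.take_take] at this
    rwa [min_eq_left hk] at this

/-- in the play against a local tactic all moves stay in the piece -/
theorem LT_stay {V : Set X} {k : ℕ} (hk : 1 ≤ k) {τ : List (Set X) → Set X}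
    (h1 : ∀ U l, IsOpen U → (U ∩ V).Nonempty → NO (τ (U :: l)) ∧ τ (U :: l) ⊆ U ∩ V)
    {U : ℕ → Set X} (hU : ∀ n, NO (U n)) (h0 : (U 0 ∩ V).Nonempty)
    (hs : ∀ n, U (n + 1) ⊆ τ ((hist U n).take k)) :
    ∀ n, (U n ∩ V).Nonempty ∧ U (n + 1) ⊆ U n ∩ V := by
  intro n
  induction n with
  | zero =>
    refine ⟨h0, ?_⟩
    obtain ⟨l, hl⟩ := hist_take U 0 k hk
    have h2 := hs 0
    rw [hl] at h2
    exact h2.trans (h1 _ l (hU 0).1 h0).2
  | succ n ih =>
    have h3 : (U (n + 1) ∩ V).Nonempty := by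
      obtain ⟨x, hx⟩ := (hU (n + 1)).2
      exact ⟨x, hx, (ih.2 hx).2⟩
    refine ⟨h3, ?_⟩
    obtain ⟨l, hl⟩ := hist_take U (n + 1) k hk
    have h2 := hs (n + 1)
    rw [hl] at h2
    exact h2.trans (h1 _ l (hU (n + 1)).1 h3).2

/-- from local tactics to a tactic on the whole space -/
theorem LT_global (k : ℕ) (hk : 1 ≤ k)
    (h : ∀ U : Set X, NO U → ∃ V, NO V ∧ V ⊆ U ∧ LT V k) :
    ∃ τ : List (Set X) → Set X, (∀ U l, NO U → NO (τ (U :: l)) ∧ τ (U :: l) ⊆ U) ∧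
      ∀ U : ℕ → Set X, (∀ n, NO (U n)) → (∀ n, U (n + 1) ⊆ τ ((hist U n).take k)) →
        (⋂ n, U n).Nonempty := by
  classical
  -- a maximal cellular family of good pieces
  obtain ⟨F, hF⟩ : ∃ F : Set (Set X), Maximal
      (fun F : Set (Set X) => (∀ V ∈ F, NO V ∧ LT V k) ∧ F.PairwiseDisjoint id) F := by
    apply zorn_subset
    intro c hc hchain
    refine ⟨⋃₀ c, ⟨?_, ?_⟩, fun s hs => subset_sUnion_of_mem hs⟩
    · rintro V ⟨s, hs, hV⟩
      exact (hc hs).1 V hV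
    · exact (pairwiseDisjoint_sUnion hchain.directedOn).2 fun s hs => (hc hs).2
  have hdense : ∀ U : Set X, NO U → ∃ V ∈ F, (U ∩ V).Nonempty := by
    intro U hU
    by_contra hcon
    push Not at hcon
    obtain ⟨V, hV, hVU, hVk⟩ := h U hU
    have hVF : V ∈ F := by
      have h1 : insert V F ⊆ F := by
        apply hF.2 (y := insert V F) ⟨?_, ?_⟩ (subset_insert _ _)
        · intro W hW
          rcases hW with rfl | hW
          · exact ⟨hV, hVk⟩
          · exact hF.1.1 W hW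
        · rw [pairwiseDisjoint_insert]
          refine ⟨hF.1.2, fun W hW _ => ?_⟩
          show Disjoint V W
          rw [Set.disjoint_iff_inter_eq_empty]
          have h2 := hcon W hW
          rw [← Set.subset_empty_iff, ← h2]
          exact inter_subset_inter_left _ hVU
      exact h1 (mem_insert _ _)
    have h2 := hcon V hVF
    obtain ⟨x, hx⟩ := hV.2
    have : x ∈ U ∩ V := ⟨hVU hx, hx⟩
    rw [h2] at this
    exact this
  choose! pc hpc hpc' using hdense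
  have hτ : ∀ V ∈ F, LT V k := fun V hV => (hF.1.1 V hV).2
  choose! τ hτ1 hτ2 using hτ
  let T : List (Set X) → Set X := fun w => match w with
    | [] => ∅
    | U :: l => τ (pc U) (U :: l)
  have hT : ∀ U l, NO U → NO (T (U :: l)) ∧ T (U :: l) ⊆ U ∩ pc U := fun U l hU =>
    hτ1 (pc U) (hpc U hU) U l hU.1 (hpc' U hU)
  refine ⟨T, fun U l hU => ⟨(hT U l hU).1, (hT U l hU).2.trans inter_subset_left⟩, ?_⟩
  intro U hU hs
  have hstep : ∀ n, U (n + 1) ⊆ U n ∩ pc (U n) := by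
    intro n
    obtain ⟨l, hl⟩ := hist_take U n k hk
    have h2 := hs n
    rw [hl] at h2
    exact h2.trans (hT (U n) l (hU n)).2
  have hpcn : ∀ n, pc (U n) = pc (U 0) := by
    intro n
    induction n with
    | zero => rfl
    | succ n ih =>
      rw [← ih]
      by_contra hne
      have h3 := hF.1.2 (hpc _ (hU (n + 1))) (hpc _ (hU n)) hne
      obtain ⟨x, hx1, hx2⟩ := hpc' _ (hU (n + 1))
      exact Set.disjoint_left.1 h3 hx2 (hstep n hx1).2
  refine hτ2 (pc (U 0)) (hpc _ (hU 0)) U hU (hpc' _ (hU 0)) fun n => ?_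
  have h2 := hs n
  obtain ⟨l, hl⟩ := hist_take U n k hk
  rw [hl] at h2 ⊢
  have h3 : T (U n :: l) = τ (pc (U 0)) (U n :: l) := by
    show τ (pc (U n)) (U n :: l) = _
    rw [hpcn n]
  rwa [h3] at h2

/-- hyperconnected pieces -/
theorem LT_hyper (hW : WS X) {V : Set X} (hV : NO V)
    (hh : ∀ A B, NO A → NO B → A ⊆ V → B ⊆ V → (A ∩ B).Nonempty) : LT V 1 := by
  obtain ⟨σ, hσ1, hσ2⟩ := hW
  refine ⟨fun w => match w with
    | [] => ∅
    | U :: _ => U ∩ V, fun U l hU hUV => ⟨⟨hU.inter hV.1, hUV⟩, le_rfl⟩, ?_⟩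
  intro U hU h0 hs
  have hst := LT_stay (k := 1) le_rfl (τ := fun w => match w with
    | [] => ∅
    | U :: _ => U ∩ V) (fun U l hU hUV => ⟨⟨hU.inter hV.1, hUV⟩, le_rfl⟩) hU h0 hs
  -- player I plays the sets `U (n + 1)` one after the other
  let G : ℕ → Set X := fun n => U (n + 1)
  have hG : ∀ n, NO (G n) ∧ G n ⊆ V := fun n => ⟨hU _, (hst n).2.trans inter_subset_right⟩
  let L : ℕ → List (Set X) := fun n => Nat.rec [G 0] (fun n l => (σ l ∩ G (n + 1)) :: l) n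
  have hL : ∀ n, ∃ A l, L n = A :: l ∧ NO A ∧ A ⊆ V ∧ A ⊆ G n := by
    intro n
    induction n with
    | zero => exact ⟨G 0, [], rfl, (hG 0).1, (hG 0).2, le_rfl⟩
    | succ n ih =>
      obtain ⟨A, l, hl, hA, hAV, -⟩ := ih
      have h1 := hσ1 A l hA
      refine ⟨σ (A :: l) ∩ G (n + 1), A :: l, ?_, ?_, ?_, inter_subset_right⟩
      · show (σ (L n) ∩ G (n + 1)) :: L n = _
        rw [hl]
      · exact ⟨h1.1.1.inter (hG _).1.1, hh _ _ h1.1 (hG _).1 (h1.2.trans hAV) (hG _).2⟩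
      · exact inter_subset_right.trans (hG _).2
  let A : ℕ → Set X := fun n => (L n).headI
  have hA : ∀ n, NO (A n) ∧ A n ⊆ G n := by
    intro n
    obtain ⟨B, l, hl, hB, -, hBG⟩ := hL n
    show NO ((L n).headI) ∧ (L n).headI ⊆ G n
    rw [hl]
    exact ⟨hB, hBG⟩
  have hLA : ∀ n, L n = hist A n := by
    intro n
    induction n with
    | zero => rfl
    | succ n ih =>
      show (σ (L n) ∩ G (n + 1)) :: L n = A (n + 1) :: hist A n
      rw [← ih]
      rfl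
  obtain ⟨x, hx⟩ := hσ2 A (fun n => (hA n).1) (fun n => by
    rw [← hLA]
    show σ (L n) ∩ G (n + 1) ⊆ σ (L n)
    exact inter_subset_left)
  rw [mem_iInter] at hx
  refine ⟨x, mem_iInter.2 fun n => ?_⟩
  cases n with
  | zero => exact ((hst 0).2 ((hA 0).2 (hx 0))).1
  | succ n => exact (hA n).2 (hx n)

end Pool.Agent.H23.BM
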